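import Mathlib
import Pool.Agent.Helper523.Herm.Final

set_option autoImplicit false

namespace Pool.Agent.Results.MP_6deb90_an.Disc

/-- The (physicists') Hermite polynomial as a function on `ℂ`:
`H_ν(z) = (-1)^ν e^{z²} (d/dz)^ν e^{-z²}`. -/
noncomputable def H (ν : ℕ) (z : ℂ) : ℂ :=
  (-1 : ℂ) ^ ν * Complex.exp (z ^ 2) * iteratedDeriv ν (fun w : ℂ => Complex.exp (-w ^ 2)) z

/-- **Disc version of the quadrinomial theorem.** There is an absolute constant `c` such that for all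
`2 ≤ n < m` and all complex `a, b`, the polynomial `1 + H_1 + a H_n + b H_m` has a zero in the disc
`|z| ≤ c` (in particular a zero in the strip `|Im z| ≤ c`). -/
theorem result :
    ∃ c : ℝ, ∀ n m : ℕ, 2 ≤ n → n < m → ∀ a b : ℂ, ∃ z : ℂ,
      ‖z‖ ≤ c ∧ 1 + H 1 z + a * H n z + b * H m z = 0 := by
  obtain ⟨R, hR⟩ := Helper523.Herm.disc_version
  refine ⟨R, ?_⟩
  intro n m hn hnm a b
  obtain ⟨z, hz, h0⟩ := hR n m hn hnm a b
  refine ⟨z, hz, ?_⟩
  unfold H
  rw [Helper523.Herm.rodrigues, Helper523.Herm.rodrigues, Helper523.Herm.rodrigues]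
  rw [Helper523.Herm.eval_Fq] at h0
  rw [Helper523.Herm.He_one]
  simpa using h0

end Pool.Agent.Results.MP_6deb90_an.Disc
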